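import Pool.Agent.N408.IB.Stm

/-!
# Project IB (helper408), leaf MID: `Leg g = 1` outside the perturbation zone
-/

set_option autoImplicit false

open Real Set MeasureTheory IB408

namespace N574.IB.MID

theorem t (h1 : IB408.S_L1) : IB408.S_MID := by
  intro g hg h1g hout hin θ hθ1 hθ2
  obtain ⟨ha, hb, -, -, -⟩ := h1 g hg h1g
  have hπ : (3 : ℝ) < π := Real.pi_gt_three
  have hal0 : 0 ≤ al := by
    unfold al
    exact Real.arcsin_nonneg.2 (by unfold IB408.b; norm_num)
  have hal : |θ| ≤ 2 := by linarith
  apply le_antisymm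
  · have h2 := hb θ 0 ⟨by norm_num, by norm_num⟩
    rw [add_zero, Real.cos_zero, div_one, hout θ hθ1 hal] at h2
    exact h2
  · obtain ⟨d, hd, hd2⟩ := ha θ
    have hcos : 0 < Real.cos d :=
      Real.cos_pos_of_mem_Ioo ⟨by linarith [hd.1], by linarith [hd.2]⟩
    rw [hd2, le_div_iff₀ hcos, one_mul]
    have habs : |d| ≤ 1 := abs_le.2 hd
    have h3 : |θ + d| ≤ 2 := (abs_add_le θ d).trans (by linarith)
    rcases le_total al |θ + d| with h4 | h4
    · rw [hout _ h4 h3]
      exact Real.cos_le_one d
    · refine le_trans ?_ (hin _ h4)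
      have h5 : |θ| - |θ + d| ≤ |d| := by
        have := abs_sub_abs_le_abs_sub θ (θ + d)
        have e : θ - (θ + d) = -d := by ring
        rw [e, abs_neg] at this
        exact this
      rw [← Real.cos_abs d]
      exact Real.cos_le_cos_of_nonneg_of_le_pi (by linarith) (by linarith) (by linarith)

end N574.IB.MID
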